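import Mathlib

set_option autoImplicit false

namespace Pool.Agent.Work.MP_2bd3fb_al

open Equiv Equiv.Perm
open scoped commutatorElement

/-- Even permutations of `ℕ` supported on `{0, ..., n-1}`. -/
noncomputable def A (n : ℕ) : Subgroup (Perm ℕ) :=
  (alternatingGroup (Fin n)).map (viaEmbeddingHom Fin.valEmbedding)

theorem viaEmbedding_trans {α β γ : Type*} (τ : Perm α) (e : α ↪ β) (e' : β ↪ γ) :
    (τ.viaEmbedding e).viaEmbedding e' = τ.viaEmbedding (e.trans e') := by
  ext x
  by_cases hx : x ∈ Set.range e'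
  · obtain ⟨y, rfl⟩ := hx
    rw [viaEmbedding_apply]
    by_cases hy : y ∈ Set.range e
    · obtain ⟨z, rfl⟩ := hy
      rw [viaEmbedding_apply]
      have : e' (e z) = (e.trans e') z := rfl
      rw [this, viaEmbedding_apply]
      rfl
    · rw [viaEmbedding_apply_of_notMem _ _ _ hy, viaEmbedding_apply_of_notMem]
      rintro ⟨z, hz⟩
      exact hy ⟨z, e'.injective hz⟩
  · rw [viaEmbedding_apply_of_notMem _ _ _ hx, viaEmbedding_apply_of_notMem]
    rintro ⟨z, hz⟩
    exact hx ⟨e z, hz⟩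

theorem sign_viaEmbedding {α β : Type*} [Fintype α] [DecidableEq α] [Fintype β] [DecidableEq β]
    (τ : Perm α) (e : α ↪ β) : sign (τ.viaEmbedding e) = sign τ := by
  have h : τ.viaEmbedding e = @extendDomain α β τ (fun b => b ∈ Set.range e.1)
    (fun _ => Classical.propDecidable _) (ofInjective e.1 e.2) := rfl
  rw [h]
  exact @sign_extendDomain α _ β _ _ _ τ (fun b => b ∈ Set.range e.1)
    (fun _ => Classical.propDecidable _) (ofInjective e.1 e.2)

theorem viaEmbedding_mem_A {n m : ℕ} {τ : Perm (Fin n)} (hτ : τ ∈ alternatingGroup (Fin n))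
    (e : Fin n ↪ ℕ) (he : ∀ i, e i < m) : τ.viaEmbedding e ∈ A m := by
  let e' : Fin n ↪ Fin m := ⟨fun i => ⟨e i, he i⟩, fun i j h => e.injective (by simpa using h)⟩
  refine ⟨τ.viaEmbedding e', ?_, ?_⟩
  · rw [SetLike.mem_coe, mem_alternatingGroup, sign_viaEmbedding]
    exact mem_alternatingGroup.1 hτ
  · rw [viaEmbeddingHom_apply, viaEmbedding_trans]
    rfl

theorem A_mono : Monotone A := by
  intro n m hnm
  rintro _ ⟨τ, hτ, rfl⟩
  exact viaEmbedding_mem_A hτ Fin.valEmbedding (fun i => lt_of_lt_of_le i.2 hnm)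

/-- The finitary alternating group of `ℕ`. -/
noncomputable def U : Subgroup (Perm ℕ) := ⨆ n, A n

theorem mem_U {σ : Perm ℕ} : σ ∈ U ↔ ∃ n, σ ∈ A n :=
  Subgroup.mem_iSup_of_directed (A_mono.directed_le)

theorem A_le_U (n : ℕ) : A n ≤ U := le_iSup A n

theorem A_fix {n : ℕ} {σ : Perm ℕ} (h : σ ∈ A n) {x : ℕ} (hx : n ≤ x) : σ x = x := by
  obtain ⟨τ, _, rfl⟩ := h
  rw [viaEmbeddingHom_apply, viaEmbedding_apply_of_notMem]
  rintro ⟨i, hi⟩
  have := i.2
  change (i : ℕ) = x at hi
  omega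

theorem A_finite (n : ℕ) : Finite (A n) := by
  have : Finite (alternatingGroup (Fin n)) := inferInstance
  exact Finite.of_surjective _ ((viaEmbeddingHom (Fin.valEmbedding (n := n))).subgroupMap_surjective
    (alternatingGroup (Fin n)))

/-- Functoriality of `U` for embeddings of `ℕ`. -/
theorem viaEmbedding_mem_U {σ : Perm ℕ} (hσ : σ ∈ U) (a : ℕ ↪ ℕ) : σ.viaEmbedding a ∈ U := by
  obtain ⟨n, hn⟩ := mem_U.1 hσ
  obtain ⟨τ, hτ, rfl⟩ := hn
  rw [viaEmbeddingHom_apply, viaEmbedding_trans]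
  obtain ⟨m, hm⟩ : ∃ m, ∀ i : Fin n, (Fin.valEmbedding.trans a) i < m := by
    obtain ⟨M, hM⟩ := Set.Finite.bddAbove (Set.finite_range (Fin.valEmbedding.trans a))
    exact ⟨M + 1, fun i => Nat.lt_succ_of_le (hM ⟨i, rfl⟩)⟩
  exact A_le_U m (viaEmbedding_mem_A hτ _ hm)

/-- The homomorphism `U → U` induced by an embedding of `ℕ`. -/
noncomputable def via (a : ℕ ↪ ℕ) : U →* U :=
  ((viaEmbeddingHom a).comp U.subtype).codRestrict U (fun σ => viaEmbedding_mem_U σ.2 a)

theorem via_coe (a : ℕ ↪ ℕ) (σ : U) : ((via a σ : U) : Perm ℕ) = (σ : Perm ℕ).viaEmbedding a := rfl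

/-- first embedding -/
def ea (N : ℕ) : ℕ ↪ ℕ := ⟨fun i => if i < N then i else N + 2 * (i - N), by
  intro i j h
  simp only at h
  split_ifs at h <;> omega⟩

/-- second embedding -/
def eb (N : ℕ) : ℕ ↪ ℕ := ⟨fun i => N + 2 * i + 1, by
  intro i j h
  simp only at h
  omega⟩

theorem ea_apply (N i : ℕ) : ea N i = if i < N then i else N + 2 * (i - N) := rfl

theorem eb_apply (N i : ℕ) : eb N i = N + 2 * i + 1 := rfl

theorem ea_ne_eb (N i j : ℕ) : ea N i ≠ eb N j := by
  rw [ea_apply, eb_apply]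
  split_ifs <;> omega

theorem via_commute (N : ℕ) (σ τ : U) : Commute (via (ea N) σ) (via (eb N) τ) := by
  have h : Equiv.Perm.Disjoint ((σ : Perm ℕ).viaEmbedding (ea N))
      ((τ : Perm ℕ).viaEmbedding (eb N)) := by
    intro x
    by_cases hx : x ∈ Set.range (ea N)
    · right
      rw [viaEmbedding_apply_of_notMem]
      rintro ⟨j, hj⟩
      obtain ⟨i, hi⟩ := hx
      exact ea_ne_eb N i j (hi.trans hj.symm)
    · left
      exact viaEmbedding_apply_of_notMem _ _ _ hx
  have h2 := h.commute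
  apply Subtype.ext
  exact h2

/-- The embedding `U × U → U`. -/
noncomputable def j (N : ℕ) : U × U →* U :=
  (via (ea N)).noncommCoprod (via (eb N)) (via_commute N)

theorem j_injective (N : ℕ) : Function.Injective (j N) := by
  rw [injective_iff_map_eq_one]
  rintro ⟨σ, τ⟩ h
  have h0 : (σ : Perm ℕ).viaEmbedding (ea N) * (τ : Perm ℕ).viaEmbedding (eb N) = 1 :=
    congrArg Subtype.val h
  have h1 : ∀ x, (σ : Perm ℕ).viaEmbedding (ea N) ((τ : Perm ℕ).viaEmbedding (eb N) x) = x := by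
    intro x
    have := congrArg (fun (p : Perm ℕ) => p x) h0
    exact this
  have hσ : σ = 1 := by
    apply Subtype.ext
    ext x
    have h2 := h1 (ea N x)
    rw [viaEmbedding_apply_of_notMem (τ : Perm ℕ), viaEmbedding_apply] at h2
    · have := (ea N).injective h2
      rw [this]; rfl
    · rintro ⟨i, hi⟩
      exact ea_ne_eb N x i hi.symm
  have hτ : τ = 1 := by
    apply Subtype.ext
    ext x
    have h2 := h1 (eb N x)
    rw [viaEmbedding_apply, viaEmbedding_apply_of_notMem] at h2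
    · have := (eb N).injective h2
      rw [this]; rfl
    · rintro ⟨i, hi⟩
      exact ea_ne_eb N _ _ hi
  rw [hσ, hτ]; rfl

theorem j_left (N : ℕ) (σ : U) (hσ : (σ : Perm ℕ) ∈ A N) : j N (σ, 1) = σ := by
  apply Subtype.ext
  have : (j N (σ, 1) : U) = via (ea N) σ := by
    simp [j]
  rw [this, via_coe]
  ext x
  by_cases hx : x < N
  · have e1 : x = ea N x := by rw [ea_apply, if_pos hx]
    have hlt : (σ : Perm ℕ) x < N := by
      by_contra hge
      push Not at hge
      have h1 := A_fix hσ hge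
      have h2 := (σ : Perm ℕ).injective h1
      omega
    conv_lhs => rw [e1]
    rw [viaEmbedding_apply, ea_apply, if_pos hlt]
  · rw [A_fix hσ (not_lt.1 hx)]
    by_cases hxr : x ∈ Set.range (ea N)
    · obtain ⟨i, hi⟩ := hxr
      have hi' : N ≤ i := by
        by_contra hlt
        push Not at hlt
        have : ea N i = i := by rw [ea_apply, if_pos hlt]
        omega
      conv_lhs => rw [← hi]
      rw [viaEmbedding_apply, A_fix hσ hi', hi]
    · exact viaEmbedding_apply_of_notMem _ _ _ hxr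

/-- The homomorphism from the finite alternating groups. -/
noncomputable def fA (n : ℕ) : alternatingGroup (Fin n) →* U :=
  ((viaEmbeddingHom Fin.valEmbedding).comp (alternatingGroup (Fin n)).subtype).codRestrict U
    (fun τ => A_le_U n ⟨τ, τ.2, rfl⟩)

theorem fA_injective (n : ℕ) : Function.Injective (fA n) := by
  intro x y h
  apply Subtype.ext
  have h1 : viaEmbeddingHom Fin.valEmbedding (x : Perm (Fin n)) =
      viaEmbeddingHom Fin.valEmbedding (y : Perm (Fin n)) := congrArg Subtype.val h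
  exact viaEmbeddingHom_injective _ h1

theorem mem_range_fA {n : ℕ} {σ : U} : σ ∈ (fA n).range ↔ (σ : Perm ℕ) ∈ A n := by
  constructor
  · rintro ⟨τ, rfl⟩
    exact ⟨τ, τ.2, rfl⟩
  · rintro ⟨τ, hτ, h⟩
    exact ⟨⟨τ, hτ⟩, Subtype.ext h⟩

theorem U_simple : IsSimpleGroup U := by
  have hs : ∀ n, 5 ≤ n → IsSimpleGroup (alternatingGroup (Fin n)) := fun n hn =>
    alternatingGroup.isSimpleGroup (by simpa using hn)
  have hnt : Nontrivial U := by
    have := hs 5 le_rfl
    exact (fA_injective 5).nontrivial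
  refine ⟨fun V hV => ?_⟩
  by_cases hbot : V = ⊥
  · left; exact hbot
  right
  obtain ⟨v, hv, hv1⟩ := (Subgroup.ne_bot_iff_exists_ne_one.1 hbot) |>.elim
    (fun v hv => (⟨v.1, v.2, fun h => hv (Subtype.ext h)⟩ : ∃ v : U, v ∈ V ∧ v ≠ 1))
  obtain ⟨n, hn⟩ := mem_U.1 v.2
  rw [eq_top_iff]
  intro w _
  obtain ⟨m, hm⟩ := mem_U.1 w.2
  let k := max 5 (max n m)
  have := hs k (le_max_left _ _)
  have hvk : v ∈ (fA k).range :=
    mem_range_fA.2 (A_mono ((le_max_left n m).trans (le_max_right _ _)) hn)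
  have hwk : w ∈ (fA k).range :=
    mem_range_fA.2 (A_mono ((le_max_right n m).trans (le_max_right _ _)) hm)
  obtain ⟨v', rfl⟩ := hvk
  obtain ⟨w', rfl⟩ := hwk
  have hcn : (V.comap (fA k)).Normal := hV.comap _
  rcases hcn.eq_bot_or_eq_top with h | h
  · exfalso
    have h1 : v' ∈ V.comap (fA k) := hv
    rw [h, Subgroup.mem_bot] at h1
    exact hv1 (by rw [h1, map_one])
  · have h1 : w' ∈ V.comap (fA k) := by rw [h]; exact Subgroup.mem_top _
    exact h1

theorem U_noncomm : ∃ x y : U, x * y ≠ y * x := by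
  have : IsSimpleGroup (alternatingGroup (Fin 5)) := alternatingGroup.isSimpleGroup (by simp)
  have hns : ∃ x y : alternatingGroup (Fin 5), x * y ≠ y * x := by
    refine ⟨⟨swap 0 1 * swap 1 2, mem_alternatingGroup.2 (by decide)⟩,
      ⟨swap 0 1 * swap 1 3, mem_alternatingGroup.2 (by decide)⟩, ?_⟩
    intro h
    have h1 := congrArg (fun (p : alternatingGroup (Fin 5)) => (p : Perm (Fin 5)) 0) h
    revert h1
    decide
  obtain ⟨x, y, hxy⟩ := hns
  refine ⟨fA 5 x, fA 5 y, fun h => hxy (fA_injective 5 ?_)⟩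
  rw [map_mul, map_mul, h]

theorem U_perfect : commutator U = ⊤ := by
  have := U_simple
  have h : (commutator U).Normal := inferInstance
  rcases h.eq_bot_or_eq_top with h | h
  · exfalso
    obtain ⟨x, y, hxy⟩ := U_noncomm
    apply hxy
    have : ⁅x, y⁆ ∈ commutator U :=
      Subgroup.commutator_mem_commutator (Subgroup.mem_top _) (Subgroup.mem_top _)
    rw [h, Subgroup.mem_bot] at this
    exact commutatorElement_eq_one_iff_mul_comm.1 this
  · exact h

end Pool.Agent.Work.MP_2bd3fb_al
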