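import Mathlib

set_option autoImplicit false

namespace Pool.Agent.Work.MP_2bd3fb_al

open scoped commutatorElement

/-- The wreath product of `M` with the group of order two. -/
@[ext]
structure W (M : Type*) where
  /-- the base coordinates -/
  f : Bool → M
  /-- the top coordinate -/
  c : Bool

namespace W

variable {M : Type*} [Group M]

instance : Mul (W M) := ⟨fun x y => ⟨fun i => x.f i * y.f (xor i x.c), xor x.c y.c⟩⟩
instance : One (W M) := ⟨⟨fun _ => 1, false⟩⟩
instance : Inv (W M) := ⟨fun x => ⟨fun i => (x.f (xor i x.c))⁻¹, x.c⟩⟩

theorem mul_f (x y : W M) (i : Bool) : (x * y).f i = x.f i * y.f (xor i x.c) := rfl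
theorem mul_c (x y : W M) : (x * y).c = xor x.c y.c := rfl
theorem one_f (i : Bool) : (1 : W M).f i = 1 := rfl
theorem one_c : (1 : W M).c = false := rfl
theorem inv_f (x : W M) (i : Bool) : (x⁻¹).f i = (x.f (xor i x.c))⁻¹ := rfl
theorem inv_c (x : W M) : (x⁻¹).c = x.c := rfl

instance : Group (W M) :=
  Group.ofLeftAxioms
    (by
      intro x y z
      ext i
      · simp only [mul_f, mul_c, mul_assoc, Bool.xor_assoc]
      · simp only [mul_c, Bool.xor_assoc])
    (by
      intro x
      ext i
      · simp only [mul_f, one_f, one_c, one_mul, Bool.xor_false]
      · simp only [mul_c, one_c, Bool.false_xor])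
    (by
      intro x
      ext i
      · simp only [mul_f, inv_f, inv_c, one_f, inv_mul_cancel]
      · simp only [mul_c, inv_c, one_c, Bool.xor_self])

/-- The base group. -/
def base : (Bool → M) →* W M where
  toFun f := ⟨f, false⟩
  map_one' := rfl
  map_mul' f g := by
    ext i
    · simp [mul_f]
    · simp [mul_c]

theorem base_f (f : Bool → M) : (base f).f = f := rfl
theorem base_c (f : Bool → M) : (base f).c = false := rfl

theorem base_injective : Function.Injective (base (M := M)) := by
  intro f g h
  have := congrArg W.f h
  exact this

/-- The subgroup of elements with trivial top coordinate. -/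
def ker (M : Type*) [Group M] : Subgroup (W M) where
  carrier := {x | x.c = false}
  one_mem' := rfl
  mul_mem' := by
    intro x y hx hy
    change xor x.c y.c = false
    have hx' : x.c = false := hx
    have hy' : y.c = false := hy
    rw [hx', hy']; rfl
  inv_mem' := by
    intro x hx
    exact hx

theorem mem_ker {x : W M} : x ∈ ker M ↔ x.c = false := Iff.rfl

theorem comm_c (x y : W M) : (⁅x, y⁆).c = false := by
  rw [commutatorElement_def]
  simp only [mul_c, inv_c]
  cases x.c <;> cases y.c <;> rfl

theorem base_mem_commutator (h : commutator M = ⊤) (g : Bool → M) :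
    base g ∈ commutator (W M) := by
  have key : ∀ (i : Bool) (m : M), base (Pi.mulSingle i m) ∈ commutator (W M) := by
    intro i m
    have h1 : (commutator M).map ((base (M := M)).comp (MonoidHom.mulSingle (fun _ => M) i))
        ≤ commutator (W M) := by
      rw [commutator_def, commutator_def, Subgroup.map_commutator]
      exact Subgroup.commutator_mono le_top le_top
    apply h1
    refine ⟨m, ?_, rfl⟩
    rw [h]; exact Subgroup.mem_top m
  have h2 : g = Pi.mulSingle false (g false) * Pi.mulSingle true (g true) := by
    funext i
    cases i <;> simp
  rw [h2, map_mul]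
  exact (commutator (W M)).mul_mem (key _ _) (key _ _)

theorem commutator_eq (h : commutator M = ⊤) : commutator (W M) = ker M := by
  apply le_antisymm
  · rw [commutator_def, Subgroup.commutator_le]
    intro x _ y _
    exact comm_c x y
  · intro x hx
    have : x = base x.f := by
      ext i
      · rfl
      · exact hx
    rw [this]
    exact base_mem_commutator h x.f

/-- Functoriality. -/
def map {M' : Type*} [Group M'] (j : M →* M') : W M →* W M' where
  toFun x := ⟨fun i => j (x.f i), x.c⟩
  map_one' := by
    ext i
    · simp [one_f]
    · rfl
  map_mul' x y := by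
    ext i
    · simp [mul_f]
    · simp [mul_c]

theorem map_injective {M' : Type*} [Group M'] {j : M →* M'} (hj : Function.Injective j) :
    Function.Injective (map j) := by
  intro x y h
  have h1 := congrArg W.f h
  have h2 := congrArg W.c h
  ext i
  · exact hj (congrFun h1 i)
  · exact h2

/-- The embedding of `W (U × U)` in `W (W U)`. -/
def psi (U : Type*) [Group U] : W (U × U) →* W (W U) where
  toFun x := ⟨fun i => ⟨fun k => if i then (x.f k).2 else (x.f k).1, x.c⟩, false⟩
  map_one' := by
    ext i k
    · simp only [one_f, Prod.fst_one, Prod.snd_one, ite_self]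
    · rfl
    · rfl
  map_mul' x y := by
    ext i k
    · cases i <;> simp [mul_f]
    · simp [mul_c, mul_f]
    · rfl

theorem psi_injective (U : Type*) [Group U] : Function.Injective (psi U) := by
  intro x y h
  have h1 : ∀ i, (psi U x).f i = (psi U y).f i := fun i => by rw [h]
  have h2 : ∀ i k, ((psi U x).f i).f k = ((psi U y).f i).f k := fun i k => by rw [h1]
  have h3 : ((psi U x).f false).c = ((psi U y).f false).c := by rw [h]
  ext k
  · have := h2 false k
    simpa [psi] using this
  · have := h2 true k
    simpa [psi] using this
  · exact h3

theorem range_psi (U : Type*) [Group U] (hU : commutator U = ⊤) :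
    (psi U).range = commutator (W (W U)) := by
  apply le_antisymm
  · rintro _ ⟨x, rfl⟩
    -- write as (y, y⁻¹) * (1, k)
    set F : W (W U) := psi U x with hF
    set y : W U := F.f false with hy
    have hFc : F.c = false := rfl
    have hyc : y.c = (F.f true).c := rfl
    have e1 : F = ⁅(⟨fun i => if i then 1 else y, false⟩ : W (W U)), ⟨fun _ => 1, true⟩⁆ *
        base (fun i => if i then y * F.f true else 1) := by
      rw [commutatorElement_def]
      apply W.ext
      · funext i
        cases i <;> simp [mul_f, mul_c, inv_f, inv_c, base_f, ← hy]
      · simp [mul_c, inv_c, base_c, hFc]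
    rw [e1]
    refine (commutator (W (W U))).mul_mem ?_ ?_
    · rw [commutator_def]
      exact Subgroup.commutator_mem_commutator (Subgroup.mem_top _) (Subgroup.mem_top _)
    · have h1 : y * F.f true ∈ commutator (W U) := by
        rw [commutator_eq hU, mem_ker, mul_c, hyc, Bool.xor_self]
      have h2 : (commutator (W U)).map
          ((base (M := W U)).comp (MonoidHom.mulSingle (fun _ => W U) true))
          ≤ commutator (W (W U)) := by
        rw [commutator_def, commutator_def, Subgroup.map_commutator]
        exact Subgroup.commutator_mono le_top le_top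
      apply h2
      refine ⟨_, h1, ?_⟩
      simp only [MonoidHom.comp_apply, MonoidHom.mulSingle_apply]
      congr 1
      funext i
      cases i <;> simp
  · rw [commutator_def, Subgroup.commutator_le]
    intro x _ y _
    have h1 : (⁅x, y⁆).c = false := comm_c x y
    have h2 : ((⁅x, y⁆).f false).c = ((⁅x, y⁆).f true).c := by
      rw [commutatorElement_def]
      simp only [mul_f, mul_c, inv_f, inv_c]
      generalize x.c = a
      generalize y.c = b
      generalize hx0 : x.f = X
      generalize hy0 : y.f = Y
      cases a <;> cases b <;> simp <;>
      cases (X true).c <;> cases (X false).c <;> cases (Y true).c <;> cases (Y false).c <;> rfl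
    refine ⟨⟨fun k => (((⁅x, y⁆).f false).f k, ((⁅x, y⁆).f true).f k), ((⁅x, y⁆).f false).c⟩, ?_⟩
    apply W.ext
    · funext i
      apply W.ext
      · funext k
        cases i <;> simp [psi]
      · cases i
        · rfl
        · exact h2
    · exact h1.symm

end W

end Pool.Agent.Work.MP_2bd3fb_al
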