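import Mathlib
import Pool.Agent.Work.MP_2bd3fb_al.Wreath

set_option autoImplicit false

namespace Pool.Agent.Work.MP_2bd3fb_al

open scoped commutatorElement

/-- Automorphisms of `U × U` with `U` simple and noncommutative preserve or swap the factors. -/
theorem aut_dichotomy {U : Type*} [Group U] [IsSimpleGroup U] (hnc : ∃ x y : U, x * y ≠ y * x)
    (α : (Bool → U) ≃* (Bool → U)) :
    (∀ i u, ∃ u', α (Pi.mulSingle i u) = Pi.mulSingle i u') ∨
    (∀ i u, ∃ u', α (Pi.mulSingle i u) = Pi.mulSingle (!i) u') := by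
  classical
  -- coordinate homomorphisms
  let ev : Bool → (Bool → U) →* U := fun k => Pi.evalMonoidHom (fun _ => U) k
  let sg : Bool → U →* (Bool → U) := fun i => MonoidHom.mulSingle (fun _ => U) i
  have sg_apply : ∀ i u, sg i u = Pi.mulSingle i u := fun _ _ => rfl
  let p : Bool → Bool → U →* U := fun i k => ((ev k).comp α.toMonoidHom).comp (sg i)
  have p_apply : ∀ i k u, p i k u = α (Pi.mulSingle i u) k := fun _ _ _ => rfl
  have hsurj : ∀ k, Function.Surjective ((ev k).comp α.toMonoidHom) := by
    intro k u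
    obtain ⟨f, hf⟩ := α.surjective (Pi.mulSingle k u)
    refine ⟨f, ?_⟩
    change α f k = u
    rw [hf]; simp
  have hsgn : ∀ i, (sg i).range.Normal := by
    intro i
    refine ⟨?_⟩
    rintro _ ⟨u, rfl⟩ g
    refine ⟨g i * u * (g i)⁻¹, ?_⟩
    funext k
    by_cases hk : k = i
    · subst hk; simp [sg_apply]
    · simp [sg_apply, Pi.mulSingle_eq_of_ne hk]
  have hP : ∀ i k, (p i k).range = ⊥ ∨ (p i k).range = ⊤ := by
    intro i k
    have h1 : (p i k).range = (sg i).range.map ((ev k).comp α.toMonoidHom) :=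
      MonoidHom.range_comp _ _
    have h2 : (p i k).range.Normal := by
      rw [h1]; exact (hsgn i).map _ (hsurj k)
    exact h2.eq_bot_or_eq_top
  have hcomm : ∀ k (u v : U), p false k u * p true k v = p true k v * p false k u := by
    intro k u v
    have h1 : (Pi.mulSingle false u : Bool → U) * Pi.mulSingle true v =
        Pi.mulSingle true v * Pi.mulSingle false u := by
      funext i; cases i <;> simp
    rw [p_apply, p_apply]
    have h2 := congrArg α h1
    rw [map_mul, map_mul] at h2
    exact congrFun h2 k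
  have hnotboth : ∀ k, ¬ ((p false k).range = ⊤ ∧ (p true k).range = ⊤) := by
    rintro k ⟨h1, h2⟩
    obtain ⟨x, y, hxy⟩ := hnc
    have hx : x ∈ (p false k).range := by rw [h1]; exact Subgroup.mem_top x
    have hy : y ∈ (p true k).range := by rw [h2]; exact Subgroup.mem_top y
    obtain ⟨u, rfl⟩ := hx
    obtain ⟨v, rfl⟩ := hy
    exact hxy (hcomm k u v)
  have hbot : ∀ i k, (p i k).range = ⊥ → ∀ u, α (Pi.mulSingle i u) k = 1 := by
    intro i k h u
    have : p i k u ∈ (p i k).range := ⟨u, rfl⟩
    rw [h, Subgroup.mem_bot] at this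
    exact this
  obtain ⟨z, hz⟩ := exists_ne (1 : U)
  have hsome : ∀ i, ¬ ((p i false).range = ⊥ ∧ (p i true).range = ⊥) := by
    rintro i ⟨h1, h2⟩
    have h3 : α (Pi.mulSingle i z) = 1 := by
      funext k
      cases k
      · exact hbot i false h1 z
      · exact hbot i true h2 z
    have h4 : (Pi.mulSingle i z : Bool → U) = 1 := by
      apply α.injective; rw [h3, map_one]
    have h5 := congrFun h4 i
    simp at h5
    exact hz h5
  have htb : (⊥ : Subgroup U) ≠ ⊤ := bot_ne_top
  have hD : (p false true).range = ⊥ → (p true false).range = ⊥ →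
      (∀ i u, ∃ u', α (Pi.mulSingle i u) = Pi.mulSingle i u') := by
    intro h1 h2 i u
    refine ⟨α (Pi.mulSingle i u) i, ?_⟩
    funext k
    by_cases hk : k = i
    · subst hk; simp
    · rw [Pi.mulSingle_eq_of_ne hk]
      cases i <;> cases k
      · exact absurd rfl hk
      · exact hbot _ _ h1 u
      · exact hbot _ _ h2 u
      · exact absurd rfl hk
  have hT : (p false false).range = ⊥ → (p true true).range = ⊥ →
      (∀ i u, ∃ u', α (Pi.mulSingle i u) = Pi.mulSingle (!i) u') := by
    intro h1 h2 i u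
    refine ⟨α (Pi.mulSingle i u) (!i), ?_⟩
    funext k
    by_cases hk : k = !i
    · subst hk; simp
    · rw [Pi.mulSingle_eq_of_ne hk]
      cases i <;> cases k
      · exact hbot _ _ h1 u
      · exact absurd rfl hk
      · exact absurd rfl hk
      · exact hbot _ _ h2 u
  rcases hP false false with a | a <;> rcases hP false true with b | b <;>
  rcases hP true false with c | c <;> rcases hP true true with d | d
  · exact absurd ⟨a, b⟩ (hsome false)
  · exact absurd ⟨a, b⟩ (hsome false)
  · exact absurd ⟨a, b⟩ (hsome false)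
  · exact absurd ⟨a, b⟩ (hsome false)
  · exact absurd ⟨c, d⟩ (hsome true)
  · exact absurd ⟨b, d⟩ (hnotboth true)
  · exact Or.inr (hT a d)
  · exact absurd ⟨b, d⟩ (hnotboth true)
  · exact absurd ⟨c, d⟩ (hsome true)
  · exact Or.inl (hD b c)
  · exact absurd ⟨a, c⟩ (hnotboth false)
  · exact absurd ⟨a, c⟩ (hnotboth false)
  · exact absurd ⟨c, d⟩ (hsome true)
  · exact absurd ⟨b, d⟩ (hnotboth true)
  · exact absurd ⟨a, c⟩ (hnotboth false)
  · exact absurd ⟨a, c⟩ (hnotboth false)

/-- `W U` is not a derived subgroup when `U` is simple and noncommutative. -/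
theorem not_integrable {U : Type*} [Group U] [IsSimpleGroup U] (hnc : ∃ x y : U, x * y ≠ y * x)
    (hperf : commutator U = ⊤) {H : Type*} [Group H] (e : commutator H ≃* W U) : False := by
  classical
  let ι : W U →* H := (commutator H).subtype.comp e.symm.toMonoidHom
  have hι : Function.Injective ι := by
    intro x y h
    exact e.symm.injective (Subtype.ext h)
  have hιr : ι.range = commutator H := by
    apply le_antisymm
    · rintro _ ⟨x, rfl⟩
      exact (e.symm x).2
    · intro y hy
      refine ⟨e ⟨y, hy⟩, ?_⟩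
      change ((e.symm (e ⟨y, hy⟩) : commutator H) : H) = y
      rw [e.symm_apply_apply]
  -- the base
  let β : (Bool → U) →* H := ι.comp W.base
  have hβ : Function.Injective β := hι.comp W.base_injective
  have hβr : β.range = ⁅commutator H, commutator H⁆ := by
    have h1 : (W.base (M := U)).range = commutator (W U) := by
      rw [W.commutator_eq hperf]
      apply le_antisymm
      · rintro _ ⟨f, rfl⟩; exact rfl
      · intro x hx
        refine ⟨x.f, ?_⟩
        ext i
        · rfl
        · exact hx.symm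
    have h2 : β.range = (W.base (M := U)).range.map ι := MonoidHom.range_comp _ _
    rw [h2, h1, commutator_def, Subgroup.map_commutator, ← MonoidHom.range_eq_map, hιr]
  have hN : β.range.Normal := by rw [hβr]; infer_instance
  let β' : (Bool → U) ≃* β.range := MonoidHom.ofInjective hβ
  have hβ' : ∀ f, ((β' f : β.range) : H) = β f := fun f => rfl
  let α : H → (Bool → U) ≃* (Bool → U) := fun h =>
    (β'.trans (MulAut.conjNormal h)).trans β'.symm
  have hα : ∀ h f, β (α h f) = h * β f * h⁻¹ := by
    intro h f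
    have h1 : β' (α h f) = MulAut.conjNormal h (β' f) := by
      change β' (β'.symm _) = _
      rw [β'.apply_symm_apply]
      rfl
    have h2 := congrArg Subtype.val h1
    rw [hβ', MulAut.conjNormal_apply, hβ'] at h2
    exact h2
  let D : H → Prop := fun h => ∀ i u, ∃ u', h * β (Pi.mulSingle i u) * h⁻¹ =
    β (Pi.mulSingle i u')
  let T : H → Prop := fun h => ∀ i u, ∃ u', h * β (Pi.mulSingle i u) * h⁻¹ =
    β (Pi.mulSingle (!i) u')
  have hDT : ∀ h, D h ∨ T h := by
    intro h
    rcases aut_dichotomy hnc (α h) with h1 | h1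
    · left
      intro i u
      obtain ⟨u', hu'⟩ := h1 i u
      exact ⟨u', by rw [← hα, hu']⟩
    · right
      intro i u
      obtain ⟨u', hu'⟩ := h1 i u
      exact ⟨u', by rw [← hα, hu']⟩
  obtain ⟨z, hz⟩ := exists_ne (1 : U)
  have hnot : ∀ h, D h → T h → False := by
    intro h h1 h2
    obtain ⟨u', hu'⟩ := h1 false z
    obtain ⟨u'', hu''⟩ := h2 false z
    have h3 : (Pi.mulSingle false u' : Bool → U) = Pi.mulSingle (!false) u'' :=
      hβ (hu'.symm.trans hu'')
    have h4 : u' = 1 := by
      have := congrFun h3 false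
      simpa using this
    rw [h4, Pi.mulSingle_one, map_one] at hu'
    have h5 : β (Pi.mulSingle false z) = 1 := by
      have : β (Pi.mulSingle false z) = h⁻¹ * (h * β (Pi.mulSingle false z) * h⁻¹) * h := by
        group
      rw [this, hu']; group
    have h6 : (Pi.mulSingle false z : Bool → U) = 1 := hβ (by rw [h5, map_one])
    have h7 := congrFun h6 false
    simp at h7
    exact hz h7
  have conj_mul : ∀ (h k x : H), h * k * x * (h * k)⁻¹ = h * (k * x * k⁻¹) * h⁻¹ := by
    intro h k x; group
  have hDD : ∀ h k, D h → D k → D (h * k) := by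
    intro h k h1 h2 i u
    obtain ⟨u', hu'⟩ := h2 i u
    obtain ⟨u'', hu''⟩ := h1 i u'
    exact ⟨u'', by rw [conj_mul, hu', hu'']⟩
  have hDTm : ∀ h k, D h → T k → T (h * k) := by
    intro h k h1 h2 i u
    obtain ⟨u', hu'⟩ := h2 i u
    obtain ⟨u'', hu''⟩ := h1 (!i) u'
    exact ⟨u'', by rw [conj_mul, hu', hu'']⟩
  have hTD : ∀ h k, T h → D k → T (h * k) := by
    intro h k h1 h2 i u
    obtain ⟨u', hu'⟩ := h2 i u
    obtain ⟨u'', hu''⟩ := h1 i u'
    exact ⟨u'', by rw [conj_mul, hu', hu'']⟩
  have hTT : ∀ h k, T h → T k → D (h * k) := by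
    intro h k h1 h2 i u
    obtain ⟨u', hu'⟩ := h2 i u
    obtain ⟨u'', hu''⟩ := h1 (!i) u'
    refine ⟨u'', ?_⟩
    rw [Bool.not_not] at hu''
    rw [conj_mul, hu', hu'']
  have hD1 : D 1 := by
    intro i u
    exact ⟨u, by simp⟩
  have hDinv : ∀ h, D h → D h⁻¹ := by
    intro h h1
    rcases hDT h⁻¹ with h2 | h2
    · exact h2
    · exfalso
      have := hDTm h h⁻¹ h1 h2
      rw [mul_inv_cancel] at this
      exact hnot 1 hD1 this
  have hTinv : ∀ h, T h → T h⁻¹ := by
    intro h h1
    rcases hDT h⁻¹ with h2 | h2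
    · exfalso
      have := hTD h h⁻¹ h1 h2
      rw [mul_inv_cancel] at this
      exact hnot 1 hD1 this
    · exact h2
  let S : Subgroup H :=
    { carrier := {h | D h}
      one_mem' := hD1
      mul_mem' := fun {a b} ha hb => hDD a b ha hb
      inv_mem' := fun {a} ha => hDinv a ha }
  have hS : commutator H ≤ S := by
    rw [commutator_def, Subgroup.commutator_le]
    intro h _ k _
    change D ⁅h, k⁆
    rw [commutatorElement_def]
    rcases hDT h with h1 | h1 <;> rcases hDT k with h2 | h2
    · exact hDD _ _ (hDD _ _ (hDD _ _ h1 h2) (hDinv _ h1)) (hDinv _ h2)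
    · exact hTT _ _ (hTD _ _ (hDTm _ _ h1 h2) (hDinv _ h1)) (hTinv _ h2)
    · exact hDD _ _ (hTT _ _ (hTD _ _ h1 h2) (hTinv _ h1)) (hDinv _ h2)
    · exact hTT _ _ (hDTm _ _ (hTT _ _ h1 h2) (hTinv _ h1)) (hTinv _ h2)
  -- the swap
  let t : W U := ⟨fun _ => 1, true⟩
  have ht : T (ι t) := by
    intro i u
    refine ⟨u, ?_⟩
    change ι t * ι (W.base (Pi.mulSingle i u)) * (ι t)⁻¹ = ι (W.base (Pi.mulSingle (!i) u))
    rw [← map_inv, ← map_mul, ← map_mul]
    congr 1
    apply W.ext
    · funext k
      cases i <;> cases k <;> simp [t, W.mul_f, W.mul_c, W.inv_f, W.base_f, W.base_c]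
    · simp [t, W.mul_c, W.inv_c, W.base_c]
  have htS : ι t ∈ S := hS (by rw [← hιr]; exact ⟨t, rfl⟩)
  exact hnot _ htS ht

end Pool.Agent.Work.MP_2bd3fb_al
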